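import Pool.Agent.Work.MP_894cc0_al.Stmt3

/-! For `dim V ≥ 2` and `S` the trivial or the adjoint module, `S` occurs in `H_k(ABG(Alt V))`,
`k ≥ 2`, in infinitely many degrees `n`, with multiplicity at least `2 ^ n / n ^ 7`. -/

open Filter Pool.Agent.Work.MP_894cc0_al

theorem Pool.Agent.Results.MP_894cc0_al.ExpGrowth.result (K : Type*) [Field K] [CharZero K]
    (V : Type*) [AddCommGroup V] [Module K V] [FiniteDimensional K V]
    (hV : 2 ≤ Module.finrank K V) (S : Type*) [AddCommGroup S] [Module K S]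
    [LieRingModule (Sl3 K) S] [LieModule K (Sl3 K) S]
    (hS : Nonempty (S ≃ₗ⁅K, Sl3 K⁆ TrivialLieModule K (Sl3 K) K) ∨
      Nonempty (S ≃ₗ⁅K, Sl3 K⁆ Sl3 K)) :
    ∃ᶠ n in atTop, ∃ k m : ℕ, 2 ≤ k ∧ 2 ^ n ≤ n ^ 7 * m ∧ AltSummand K V S k n m :=
  main4 K V hV S hS
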